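import Pool.Agent.TH718.UG.Near2
import Pool.Agent.TH167.T3.Zar
import Pool.Agent.Y939.XN.Xu

set_option autoImplicit false

/-!
# Curves through very general points and the classes `√|T| H - ∑_{i ∈ T} E i`
-/

namespace Pool.Agent.Q310.NR

open MvPolynomial Pool.Agent.TH167 Pool.Agent.TH167.SHDefs

/-- No form of a class which does not occur at general points. -/
theorem no_form {s : ℕ} {P : Fin s → Fin 2 → ℂ}
    (hP : AlgebraicIndependent ℚ (fun ij : Fin s × Fin 2 => P ij.1 ij.2)) {d : ℕ} {w : Fin s → ℕ}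
    {G : MvPolynomial (Fin 3) ℂ} (hG : G.IsHomogeneous d) (hm : ∀ i, G ∈ pt (P i) ^ w i)
    (h0 : G ≠ 0) (h : TH718.UG.Van w d) : False := by
  obtain ⟨F, hF, hF'⟩ := h
  have h1 : aeval (fun ij : Fin s × Fin 2 => P ij.1 ij.2) F ≠ 0 := fun h0 =>
    hF ((algebraicIndependent_iff.1 hP) F h0)
  have h2 := (hF' P h1).1
  have h3 : G ∈ H248R5.forms w P d := by
    unfold H248R5.forms
    rw [Submodule.mem_inf, Submodule.restrictScalars_mem, Ideal.mem_iInf]
    exact ⟨hG, hm⟩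
  rw [h2, Submodule.mem_bot] at h3
  exact h0 h3

theorem degree_pos {s : ℕ} {P : Fin s → Fin 2 → ℂ} {d : ℕ} {w : Fin s → ℕ}
    {G : MvPolynomial (Fin 3) ℂ} (hG : Curve P G d w) : 0 < d := by
  rcases Nat.eq_zero_or_pos d with h0 | h0
  · exfalso
    subst h0
    have h1 := hG.homogeneous
    have h2 := (MvPolynomial.totalDegree_eq_zero_iff_eq_C (p := G)).1
      (Nat.le_zero.1 (MvPolynomial.IsHomogeneous.totalDegree_le h1))
    have h3 : G.coeff 0 ≠ 0 := by
      intro h4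
      rw [h4, C_0] at h2
      exact hG.irreducible.ne_zero h2
    exact hG.irreducible.not_isUnit (by
      rw [h2]
      exact (IsUnit.mk0 _ h3).map C)
  · exact h0

/-- The uniform gap, for arbitrary nonzero forms. -/
theorem gap_form {s : ℕ} {P : Fin s → Fin 2 → ℂ}
    (hP : AlgebraicIndependent ℚ (fun ij : Fin s × Fin 2 => P ij.1 ij.2)) {d : ℕ} {w : Fin s → ℕ}
    {G : MvPolynomial (Fin 3) ℂ} (hG : G.IsHomogeneous d) (hm : ∀ i, G ∈ pt (P i) ^ w i)
    (h0 : G ≠ 0) (hd : 0 < d) (T : Finset (Fin s)) (hT : 10 ≤ T.card)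
    (h3 : 12 ≤ T.card ∨ ¬ 3 ∣ d) :
    (∑ i ∈ T, (w i : ℝ)) + 1 - 3 / √(T.card : ℝ) ≤ √(T.card : ℝ) * d := by
  classical
  obtain ⟨t, ht⟩ : ∃ t, T.card = t := ⟨_, rfl⟩
  have ht10 : 10 ≤ t := by omega
  let g : Fin t ↪o Fin s := T.orderEmbOfFin ht
  have hsum : ∀ {M : Type} [AddCommMonoid M] (f : Fin s → M), ∑ i ∈ T, f i = ∑ j : Fin t, f (g j) := by
    intro M _ f
    rw [← Finset.map_orderEmbOfFin_univ T ht, Finset.sum_map]
    rfl
  by_contra hcon
  rw [not_le] at hcon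
  rw [ht, hsum] at hcon
  rw [ht] at h3
  exact no_form hP hG hm h0 (TH718.UG.Van_sub g g.injective
    (TH718.UG.Van_of_Emp (TH718.UG.Emp_gap' ht10 (Fintype.card_fin t) hd h3
      (by rw [Nat.cast_sum]; exact hcon))))

theorem not_dvd_sq {t : ℕ} (ht : t = 10 ∨ t = 11) {a d : ℕ} (hd : 0 < d) : a ^ 2 ≠ t * d ^ 2 := by
  intro h
  have hsq : IsSquare t := by
    have h1 : d ^ 2 ∣ a ^ 2 := ⟨t, by rw [h]; ring⟩
    obtain ⟨k, hk⟩ := (Nat.pow_dvd_pow_iff (by norm_num : (2 : ℕ) ≠ 0)).1 h1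
    refine ⟨k, ?_⟩
    rw [hk] at h
    have h2 : d ^ 2 * (k * k) = d ^ 2 * t := by
      rw [mul_pow] at h
      linarith [h, mul_comm (d ^ 2) t, show k * k = k ^ 2 by ring]
    exact (Nat.eq_of_mul_eq_mul_left (by positivity) h2).symm
  obtain ⟨k, hk⟩ := hsq
  have : k < 4 := by
    by_contra hcon
    have : 16 ≤ k * k := Nat.mul_le_mul (by omega : 4 ≤ k) (by omega : 4 ≤ k)
    omega
  interval_cases k <;> omega

/-- Every irreducible plane curve is positive on the Nagata rays. -/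
theorem nag_pos {s : ℕ} {P : Fin s → Fin 2 → ℂ}
    (hP : AlgebraicIndependent ℚ (fun ij : Fin s × Fin 2 => P ij.1 ij.2)) {d : ℕ} {w : Fin s → ℕ}
    {G : MvPolynomial (Fin 3) ℂ} (hG : Curve P G d w) (T : Finset (Fin s)) (hT : 10 ≤ T.card) :
    ∑ i ∈ T, (w i : ℝ) < √(T.card : ℝ) * d := by
  have hd := degree_pos hG
  have hne := hG.irreducible.ne_zero
  have hT' : (10 : ℝ) ≤ T.card := by exact_mod_cast hT
  have hs9 : (9 : ℝ) < T.card := by linarith
  have hs3 : (3 : ℝ) < √(T.card : ℝ) := by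
    rw [Real.lt_sqrt (by norm_num)]
    linarith
  by_cases h12 : 12 ≤ T.card
  · have h1 := gap_form hP hG.homogeneous (fun i => (hG.mult i).1) hne hd T hT (Or.inl h12)
    have h2 : 3 / √(T.card : ℝ) < 1 := by
      rw [div_lt_one (by linarith)]
      exact hs3
    linarith
  -- ten or eleven points
  have hle : ∑ i ∈ T, (w i : ℝ) ≤ √(T.card : ℝ) * d := by
    by_cases h3 : 3 ∣ d
    swap
    · have h1 := gap_form hP hG.homogeneous (fun i => (hG.mult i).1) hne hd T hT (Or.inr h3)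
      have h2 : 3 / √(T.card : ℝ) < 1 := by
        rw [div_lt_one (by linarith)]
        exact hs3
      linarith
    -- multiples of the curve plus a line
    have hN : ∀ N : ℕ, 0 < N → (N : ℝ) * (∑ i ∈ T, (w i : ℝ) - √(T.card : ℝ) * d) ≤
        √(T.card : ℝ) := by
      intro N hN
      have h1 : (G ^ N * X 0).IsHomogeneous (d * N + 1) :=
        (hG.homogeneous.pow N).mul (isHomogeneous_X ℂ 0)
      have h2 : ∀ i, G ^ N * X 0 ∈ pt (P i) ^ ((fun i => w i * N) i) := by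
        intro i
        refine Ideal.mul_mem_right _ _ ?_
        simp only
        rw [pow_mul]
        exact Ideal.pow_mem_pow (hG.mult i).1 N
      have h4 : G ^ N * X 0 ≠ 0 := mul_ne_zero (pow_ne_zero _ hne) (X_ne_zero 0)
      have h5 : ¬ 3 ∣ d * N + 1 := by
        obtain ⟨k, rfl⟩ := h3
        have : 3 * k * N = 3 * (k * N) := by ring
        omega
      have h6 := gap_form hP h1 h2 h4 (by omega) T hT (Or.inr h5)
      have h7 : ∑ i ∈ T, (((fun i => w i * N) i : ℕ) : ℝ) = N * ∑ i ∈ T, (w i : ℝ) := by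
        rw [Finset.mul_sum]
        refine Finset.sum_congr rfl fun i _ => ?_
        push_cast
        ring
      rw [h7] at h6
      have h2 : 3 / √(T.card : ℝ) < 1 := by
        rw [div_lt_one (by linarith)]
        exact hs3
      push_cast at h6
      nlinarith
    by_contra hcon
    rw [not_le] at hcon
    obtain ⟨N, hN1⟩ := exists_nat_gt (√(T.card : ℝ) / (∑ i ∈ T, (w i : ℝ) - √(T.card : ℝ) * d))
    have hpos : 0 < ∑ i ∈ T, (w i : ℝ) - √(T.card : ℝ) * d := by linarith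
    rw [div_lt_iff₀ hpos] at hN1
    rcases Nat.eq_zero_or_pos N with h0 | h0
    · rw [h0] at hN1
      have : (0 : ℝ) ≤ √(T.card : ℝ) := Real.sqrt_nonneg _
      simp at hN1
      linarith
    · have := hN N h0
      linarith
  refine lt_of_le_of_ne hle fun heq => ?_
  have h1 : ((∑ i ∈ T, w i : ℕ) : ℝ) ^ 2 = (T.card : ℝ) * (d : ℝ) ^ 2 := by
    rw [Nat.cast_sum, heq, mul_pow, Real.sq_sqrt (by positivity)]
  exact not_dvd_sq (t := T.card) (by omega) hd (by exact_mod_cast h1)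

/-- The inequality of Xu and Ein-Lazarsfeld, in the form used below. -/
theorem sum_sq_le {s : ℕ} {P : Fin s → Fin 2 → ℂ}
    (hP : AlgebraicIndependent ℚ (fun ij : Fin s × Fin 2 => P ij.1 ij.2)) {d : ℕ} {w : Fin s → ℕ}
    {G : MvPolynomial (Fin 3) ℂ} (hG : Curve P G d w) : ∑ i, w i ^ 2 ≤ d ^ 2 + d := by
  have hd := degree_pos hG
  by_cases h : ∃ k, 1 ≤ w k
  · obtain ⟨k, hk⟩ := h
    obtain ⟨h1, h2, h3⟩ := SH.curve_iff.1 hG
    have hx := Y939.XN.xu hP h1 h2 h3 hk
    have hkd : w k ≤ d := by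
      by_contra hcon
      have h4 : w k ^ 2 ≤ ∑ i, w i ^ 2 :=
        Finset.single_le_sum (f := fun i => w i ^ 2) (fun i _ => Nat.zero_le _) (Finset.mem_univ k)
      have h5 : d + 1 ≤ w k := by omega
      have h6 : (d + 1) * w k ≤ w k * w k := Nat.mul_le_mul_right _ h5
      have h7 : d * (d + 1) ≤ d * w k := Nat.mul_le_mul_left _ h5
      nlinarith
    omega
  · push Not at h
    have : ∑ i, w i ^ 2 = 0 := Finset.sum_eq_zero fun i _ => by
      have := h i
      have h0 : w i = 0 := by omega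
      rw [h0]
      norm_num
    rw [this]
    exact Nat.zero_le _

end Pool.Agent.Q310.NR
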