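import Pool.Agent.Q310.NR.Curve

set_option autoImplicit false

/-!
# The norm of the multiplicities of a curve, against the degree and the Nagata class
-/

namespace Pool.Agent.Q310.NR

open MvPolynomial Pool.Agent.TH167 Pool.Agent.TH167.SHDefs

/-- Cauchy's inequality on the support. -/
theorem sum_le_supp {s : ℕ} (w : Fin s → ℕ) (T : Finset (Fin s)) {r : ℕ} {q : ℝ} (hq : 0 ≤ q)
    (hr : (Finset.univ.filter fun i => 1 ≤ w i).card ≤ r) (hrq : (r : ℝ) = q ^ 2) :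
    ∑ i ∈ T, (w i : ℝ) ≤ q * √(∑ i, (w i : ℝ) ^ 2) := by
  classical
  have h1 : ∑ i ∈ T, (w i : ℝ) ≤ ∑ i ∈ Finset.univ.filter (fun i => 1 ≤ w i), (w i : ℝ) := by
    have h2 : ∑ i ∈ T, (w i : ℝ) ≤ ∑ i, (w i : ℝ) :=
      Finset.sum_le_sum_of_subset_of_nonneg (Finset.subset_univ _) fun i _ _ => Nat.cast_nonneg _
    refine h2.trans (le_of_eq ?_)
    rw [Finset.sum_filter]
    refine Finset.sum_congr rfl fun i _ => ?_
    split_ifs with h
    · rfl
    · have : w i = 0 := by omega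
      simp [this]
  refine h1.trans ?_
  obtain ⟨A, hA⟩ : ∃ A : Finset (Fin s), A = Finset.univ.filter (fun i => 1 ≤ w i) := ⟨_, rfl⟩
  rw [← hA] at hr ⊢
  have h3 : (∑ i ∈ A, (w i : ℝ)) ^ 2 ≤ A.card * ∑ i ∈ A, (w i : ℝ) ^ 2 := sq_sum_le_card_mul_sum_sq
  have h4 : ∑ i ∈ A, (w i : ℝ) ^ 2 ≤ ∑ i, (w i : ℝ) ^ 2 :=
    Finset.sum_le_sum_of_subset_of_nonneg (Finset.subset_univ _) fun i _ _ => sq_nonneg _
  have h5 : (A.card : ℝ) ≤ q ^ 2 := by
    rw [← hrq]
    exact_mod_cast hr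
  have h6 : (0 : ℝ) ≤ ∑ i, (w i : ℝ) ^ 2 := Finset.sum_nonneg fun i _ => sq_nonneg _
  have h7 : (∑ i ∈ A, (w i : ℝ)) ^ 2 ≤ (q * √(∑ i, (w i : ℝ) ^ 2)) ^ 2 := by
    rw [mul_pow, Real.sq_sqrt h6]
    refine h3.trans (mul_le_mul h5 h4 (Finset.sum_nonneg fun i _ => sq_nonneg _) (sq_nonneg _))
  exact le_of_sq_le_sq h7 (by positivity)

/-- The norm of the multiplicities is at most the degree plus `κ` times the product with the Nagata
class. -/
theorem norm_le {s : ℕ} {P : Fin s → Fin 2 → ℂ}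
    (hP : AlgebraicIndependent ℚ (fun ij : Fin s × Fin 2 => P ij.1 ij.2)) {d : ℕ} {w : Fin s → ℕ}
    {G : MvPolynomial (Fin 3) ℂ} (hG : Curve P G d w) (T : Finset (Fin s)) (hT : 12 ≤ T.card)
    {κ : ℝ} (hκ : (13 ≤ T.card ∧ κ = 1) ∨ κ = 5 / 4) :
    √(∑ i, (w i : ℝ) ^ 2) ≤ d + κ * (√(T.card : ℝ) * d - ∑ i ∈ T, (w i : ℝ)) := by
  classical
  have hd := degree_pos hG
  have hdR : (1 : ℝ) ≤ d := by exact_mod_cast hd
  have hδ := nag_pos hP hG T (by omega)
  have hgap := gap_form hP hG.homogeneous (fun i => (hG.mult i).1) hG.irreducible.ne_zero hd T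
    (by omega) (Or.inl hT)
  obtain ⟨q, hq⟩ : ∃ q, q = √(T.card : ℝ) := ⟨_, rfl⟩
  obtain ⟨N, hN⟩ : ∃ N, N = √(∑ i, (w i : ℝ) ^ 2) := ⟨_, rfl⟩
  obtain ⟨S, hS⟩ : ∃ S, S = ∑ i ∈ T, (w i : ℝ) := ⟨_, rfl⟩
  rw [← hq, ← hS] at hδ hgap ⊢
  rw [← hN]
  have hT' : (12 : ℝ) ≤ T.card := by exact_mod_cast hT
  have hq2 : q ^ 2 = T.card := by rw [hq, Real.sq_sqrt (by positivity)]
  have hq0 : 0 ≤ q := by rw [hq]; exact Real.sqrt_nonneg _
  have hq1 : 3.464 ≤ q := by
    rw [hq]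
    refine Real.le_sqrt_of_sq_le ?_
    norm_num
    linarith
  have hq3 : 13 ≤ T.card → 3.6 ≤ q := fun h => by
    have h' : (13 : ℝ) ≤ T.card := by exact_mod_cast h
    rw [hq]
    refine Real.le_sqrt_of_sq_le ?_
    norm_num
    linarith
  have hκ1 : 1 ≤ κ := by
    rcases hκ with ⟨_, h⟩ | h <;> rw [h] <;> norm_num
  have hsumnn : (0 : ℝ) ≤ ∑ i, (w i : ℝ) ^ 2 := Finset.sum_nonneg fun i _ => sq_nonneg _
  have hN0 : 0 ≤ N := by rw [hN]; exact Real.sqrt_nonneg _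
  have hN2 : N ^ 2 = ∑ i, (w i : ℝ) ^ 2 := by rw [hN, Real.sq_sqrt hsumnn]
  by_cases h0 : ∀ i, w i = 0
  · have : N = 0 := by
      rw [hN]
      have h1 : ∑ i, (w i : ℝ) ^ 2 = 0 := Finset.sum_eq_zero fun i _ => by rw [h0 i]; norm_num
      rw [h1, Real.sqrt_zero]
    rw [this]
    have : 0 ≤ κ * (q * d - S) := mul_nonneg (by linarith) (by linarith)
    linarith
  push Not at h0
  -- the least positive multiplicity
  obtain ⟨i0, hi0⟩ := h0
  obtain ⟨A, hA⟩ : ∃ A : Finset (Fin s), A = Finset.univ.filter (fun i => 1 ≤ w i) := ⟨_, rfl⟩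
  have hAne : A.Nonempty := ⟨i0, by rw [hA, Finset.mem_filter]; exact ⟨Finset.mem_univ _, by omega⟩⟩
  obtain ⟨k, hk, hmin⟩ := Finset.exists_min_image A w hAne
  have hk1 : 1 ≤ w k := by
    rw [hA, Finset.mem_filter] at hk
    exact hk.2
  obtain ⟨h1, h2, h3⟩ := SH.curve_iff.1 hG
  have hx := Y939.XN.xu hP h1 h2 h3 hk1
  have hkd : w k ≤ d := by
    by_contra hcon
    have h4 : w k ^ 2 ≤ ∑ i, w i ^ 2 :=
      Finset.single_le_sum (f := fun i => w i ^ 2) (fun i _ => Nat.zero_le _) (Finset.mem_univ k)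
    have h5 : d + 1 ≤ w k := by omega
    have h6 : (d + 1) * w k ≤ w k * w k := Nat.mul_le_mul_right _ h5
    have h7 : d * (d + 1) ≤ d * w k := Nat.mul_le_mul_left _ h5
    nlinarith
  have hcard : A.card * w k ^ 2 ≤ ∑ i, w i ^ 2 := by
    calc A.card * w k ^ 2 = ∑ i ∈ A, w k ^ 2 := by rw [Finset.sum_const, smul_eq_mul]
      _ ≤ ∑ i ∈ A, w i ^ 2 := Finset.sum_le_sum fun i hi => Nat.pow_le_pow_left (hmin i hi) 2
      _ ≤ ∑ i, w i ^ 2 :=
        Finset.sum_le_sum_of_subset_of_nonneg (Finset.subset_univ _) fun i _ _ => Nat.zero_le _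
  obtain ⟨m, hm⟩ : ∃ m, m = w k := ⟨_, rfl⟩
  rw [← hm] at hk1 hx hkd hcard
  have hxR : N ^ 2 ≤ (d : ℝ) ^ 2 + m := by
    rw [hN2]
    exact_mod_cast hx
  have hmR : (1 : ℝ) ≤ m := by exact_mod_cast hk1
  have hmdR : (m : ℝ) ≤ d := by exact_mod_cast hkd
  have fin : ∀ a : ℝ, 0 ≤ a → (m : ℝ) ≤ 2 * a * d → N ≤ d + a := by
    intro a ha h4
    refine le_of_sq_le_sq ?_ (by linarith)
    nlinarith
  by_cases hr : 10 ≤ A.card
  · -- at least ten points
    have h4 : 3 * m ≤ d := by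
      have h5 : 10 * m ^ 2 ≤ A.card * m ^ 2 := Nat.mul_le_mul_right _ hr
      by_contra hcon
      have h6 : d + 1 ≤ 3 * m := by omega
      have h7 : (d + 1) * (d + 1) ≤ (3 * m) * (3 * m) := Nat.mul_le_mul h6 h6
      nlinarith
    have h4R : 3 * (m : ℝ) ≤ d := by exact_mod_cast h4
    have h5 := fin (1 / 6) (by norm_num) (by linarith)
    have h6 : 1 / 6 ≤ κ * (q * d - S) := by
      have h7 : 1 - 3 / q ≤ q * d - S := by linarith
      rcases hκ with ⟨h13, rfl⟩ | rfl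
      · have h8 := hq3 h13
        have h9 : 3 / q ≤ 5 / 6 := by
          rw [div_le_iff₀ (by linarith)]
          linarith
        linarith
      · have h9 : 3 / q ≤ 13 / 15 := by
          rw [div_le_iff₀ (by linarith)]
          linarith
        linarith
    linarith
  have h9 : A.card ≤ 9 := by omega
  by_cases h2m : 2 * m ≤ d
  · have h2mR : 2 * (m : ℝ) ≤ d := by exact_mod_cast h2m
    have h5 := fin (1 / 4) (by norm_num) (by linarith)
    suffices h6 : 1 / 4 ≤ κ * (q * d - S) by linarith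
    suffices h6 : 1 / 4 ≤ q * d - S by nlinarith
    by_cases hd3 : 3 ≤ d
    · have hd3R : (3 : ℝ) ≤ d := by exact_mod_cast hd3
      have h7 : S ≤ 3 * N := by
        rw [hS, hN]
        exact sum_le_supp w T (by norm_num) (r := 9) (by rw [← hA]; exact h9) (by norm_num)
      nlinarith
    · have hd2 : d = 2 := by omega
      have hm1 : m = 1 := by omega
      have h7 : S ≤ 5 := by
        have h8 : ∑ i ∈ T, w i ≤ ∑ i, w i ^ 2 := by
          calc ∑ i ∈ T, w i ≤ ∑ i, w i := 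
                Finset.sum_le_sum_of_subset_of_nonneg (Finset.subset_univ _) fun i _ _ => Nat.zero_le _
            _ ≤ ∑ i, w i ^ 2 := Finset.sum_le_sum fun i _ => Nat.le_self_pow (by norm_num) _
        rw [hd2, hm1] at hx
        have h10 : ∑ i ∈ T, w i ≤ 5 := by omega
        rw [hS]
        exact_mod_cast h10
      have hd2R : (d : ℝ) = 2 := by rw [hd2]; norm_num
      rw [hd2R]
      nlinarith
  · have h4 : A.card ≤ 4 := by
      by_contra hcon
      have h5 : 5 * m ^ 2 ≤ A.card * m ^ 2 := Nat.mul_le_mul_right _ (by omega)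
      have h6 : d + 1 ≤ 2 * m := by omega
      have h7 : (d + 1) * (d + 1) ≤ (2 * m) * (2 * m) := Nat.mul_le_mul h6 h6
      nlinarith
    have h5 := fin (1 / 2) (by norm_num) (by linarith)
    have h7 : S ≤ 2 * N := by
      rw [hS, hN]
      exact sum_le_supp w T (by norm_num) (r := 4) (by rw [← hA]; exact h4) (by norm_num)
    have h8 : q - 3 ≤ q * d - S := by nlinarith
    have h10 : 1 / 2 ≤ κ * (q * d - S) := by
      rcases hκ with ⟨h13, rfl⟩ | rfl
      · have h8 := hq3 h13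
        linarith
      · linarith
    linarith

end Pool.Agent.Q310.NR
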